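import Pool.Agent.helper83.MIMat

/-!
Pseudo-concavity of the mutual information of a qubit dichotomy along the family of
eigenprojectors of `H(l) = l ω - (ρ - σ)`, on the whole interval `[-λ⋆, λ⋆]`.
-/

namespace Pool.Agent.Results.MP_6f99f7_mp.PseudoConcave

open Matrix hiding J
open Set Pool.Agent.helper83.MICalc Pool.Agent.helper83.MIMat
open scoped ComplexOrder

/-- `ρ` is a density matrix on `ℂ²`. -/
def IsDensity (ρ : Matrix (Fin 2) (Fin 2) ℂ) : Prop := ρ.PosSemidef ∧ ρ.trace = 1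

/-- `μ = (Tr σ² - Tr ρσ) / Tr (ρ - σ)²`. -/
noncomputable def mu (ρ σ : Matrix (Fin 2) (Fin 2) ℂ) : ℝ := (tr2 σ σ - tr2 ρ σ) / tr2 (ρ - σ) (ρ - σ)

/-- `ω = μ ρ + (1 - μ) σ`. -/
noncomputable def omega (ρ σ : Matrix (Fin 2) (Fin 2) ℂ) : Matrix (Fin 2) (Fin 2) ℂ := mu ρ σ • ρ + (1 - mu ρ σ) • σ

/-- `H(l) = l ω - (ρ - σ)`. -/
noncomputable def helstrom (ρ σ : Matrix (Fin 2) (Fin 2) ℂ) (l : ℝ) : Matrix (Fin 2) (Fin 2) ℂ := l • omega ρ σ - (ρ - σ)

/-- The radicand `Tr (ρ - σ)² - Tr ρ² Tr σ² + (Tr ρσ)²`. -/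
noncomputable def radicand (ρ σ : Matrix (Fin 2) (Fin 2) ℂ) : ℝ :=
  tr2 (ρ - σ) (ρ - σ) - tr2 ρ ρ * tr2 σ σ + tr2 ρ σ ^ 2

/-- `λ⋆ = Tr (ρ - σ)² / √(Tr (ρ - σ)² - Tr ρ² Tr σ² + (Tr ρσ)²)`. -/
noncomputable def lamStar (ρ σ : Matrix (Fin 2) (Fin 2) ℂ) : ℝ := tr2 (ρ - σ) (ρ - σ) / √(radicand ρ σ)

/-- The joint distribution `P(x, y) = p x * Tr (ρ_x Π_y)` with `ρ_0 = ρ`, `ρ_1 = σ`. -/
noncomputable def joint (p : Fin 2 → ℝ) (ρ σ : Matrix (Fin 2) (Fin 2) ℂ) (P : Fin 2 → Matrix (Fin 2) (Fin 2) ℂ) (x y : Fin 2) : ℝ :=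
  p x * tr2 (![ρ, σ] x) (P y)

/-- Pseudo-concavity on a set: differentiability (one-sided at the endpoints of an interval)
and `f'(x)(y - x) ≤ 0 → f(y) ≤ f(x)`. -/
def PseudoConcaveOn (f : ℝ → ℝ) (s : Set ℝ) : Prop :=
  DifferentiableOn ℝ f s ∧ ∀ x ∈ s, ∀ y ∈ s, derivWithin f s x * (y - x) ≤ 0 → f y ≤ f x

lemma pseudoConcaveOn_of_eq_const {f : ℝ → ℝ} {s : Set ℝ} {c : ℝ} (h : ∀ x, f x = c) :
    PseudoConcaveOn f s := by
  have : f = fun _ => c := funext h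
  subst this
  exact ⟨differentiableOn_const c, fun x _ y _ _ => le_rfl⟩

set_option maxHeartbeats 4000000 in
theorem result (ρ σ : Matrix (Fin 2) (Fin 2) ℂ) (hρ : IsDensity ρ) (hσ : IsDensity σ) (hne : ρ ≠ σ)
    (p : Fin 2 → ℝ) (hp : ∀ x, 0 ≤ p x) (hp1 : p 0 + p 1 = 1) :
    0 < radicand ρ σ ∧
    (∃ P : ℝ → Fin 2 → Matrix (Fin 2) (Fin 2) ℂ, ∀ l, IsEigenMeas (helstrom ρ σ l) (P l)) ∧
    ∀ P : ℝ → Fin 2 → Matrix (Fin 2) (Fin 2) ℂ, (∀ l, IsEigenMeas (helstrom ρ σ l) (P l)) →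
      PseudoConcaveOn (fun l => mutualInfo (joint p ρ σ (P l)))
        (Icc (-lamStar ρ σ) (lamStar ρ σ)) := by
  obtain ⟨hρ1, hρ2⟩ := hρ
  obtain ⟨hσ1, hσ2⟩ := hσ
  -- basic numbers
  set α := tr2 ρ ρ with hα
  set β := tr2 σ σ with hβ
  set c := tr2 ρ σ with hc
  set D := tr2 (ρ - σ) (ρ - σ) with hD
  have hcs : tr2 σ ρ = c := tr2_comm σ ρ
  have hDeq : D = α + β - 2 * c := by
    rw [hD, tr2_sub_left, tr2_sub_right, tr2_sub_right, hcs]; ring
  have hDpos : 0 < D := tr2_self_pos (hρ1.1.sub hσ1.1) (sub_ne_zero.2 hne)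
  have hα1 : α ≤ 1 := tr2_density_le hρ1 hρ2
  have hβ1 : β ≤ 1 := tr2_density_le hσ1 hσ2
  set μ := mu ρ σ with hμ
  have hμD : μ * D = β - c := by
    rw [hμ]; unfold mu; rw [← hD, ← hβ, ← hc]; field_simp
  have hμD' : (1 - μ) * D = α - c := by rw [sub_mul, hμD, hDeq]; ring
  set ω := omega ρ σ with hω
  have hωdef : ω = μ • ρ + (1 - μ) • σ := rfl
  have hωX : ∀ X, tr2 X ω = μ * tr2 X ρ + (1 - μ) * tr2 X σ := by
    intro X; rw [hωdef, tr2_add_right, tr2_smul_right, tr2_smul_right]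
  have hωρ : tr2 ρ ω = μ * α + (1 - μ) * c := hωX ρ
  have hωσ : tr2 σ ω = μ * c + (1 - μ) * β := by rw [hωX σ, hcs]
  set W := tr2 ω ω with hW
  have hρσ : tr2 ρ ω = tr2 σ ω := by
    rw [hωρ, hωσ]
    have : μ * (α - c) + (1 - μ) * (c - β) = 0 := by
      rw [← hμD']
      have : c - β = -(μ * D) := by rw [hμD]; ring
      rw [this]; ring
    linarith
  have hWρ : tr2 ρ ω = W := by
    rw [hW, hωX ω, tr2_comm ω ρ, tr2_comm ω σ, ← hρσ]; ring
  have hWσ : tr2 σ ω = W := by rw [← hρσ, hWρ]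
  have hDW : D * W = α * β - c ^ 2 := by
    rw [← hWρ, hωρ]
    linear_combination α * hμD + c * hμD'
  have hWα : W + (1 - μ) ^ 2 * D = α := by
    rw [← hWρ, hωρ]; linear_combination (1 - μ) * hμD'
  have hWβ : W + μ ^ 2 * D = β := by
    rw [← hWσ, hωσ]; linear_combination μ * hμD
  -- traces
  have trω : ω.trace = 1 := by
    rw [hωdef, Matrix.trace_add, Matrix.trace_smul, Matrix.trace_smul, hρ2, hσ2, ← add_smul]
    simp
  have tr1 : (1 : Matrix (Fin 2) (Fin 2) ℂ).trace = 2 := by rw [Matrix.trace_one]; simp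
  have ρ1 : tr2 ρ 1 = 1 := by rw [tr2_one_right, hρ2]; simp
  have σ1 : tr2 σ 1 = 1 := by rw [tr2_one_right, hσ2]; simp
  have ω1 : tr2 ω 1 = 1 := by rw [tr2_one_right, trω]; simp
  have o1 : tr2 (1 : Matrix (Fin 2) (Fin 2) ℂ) 1 = 2 := by rw [tr2_one_right, tr1]; simp
  have hωh : ω.IsHermitian := by
    unfold Matrix.IsHermitian
    rw [hωdef, Matrix.conjTranspose_add, Matrix.conjTranspose_smul, Matrix.conjTranspose_smul,
      hρ1.1.eq, hσ1.1.eq]
    simp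
  -- `W ≥ 1/2`
  have hY : tr2 (ω - (1 / 2 : ℝ) • (1 : Matrix (Fin 2) (Fin 2) ℂ)) (ω - (1 / 2 : ℝ) • (1 : Matrix (Fin 2) (Fin 2) ℂ)) = W - 1 / 2 := by
    rw [tr2_sub_left, tr2_sub_right, tr2_sub_right, tr2_smul_left, tr2_smul_right, tr2_smul_right,
      tr2_smul_left, tr2_comm 1 ω, ω1, o1]
    ring
  have hYh : (ω - (1 / 2 : ℝ) • (1 : Matrix (Fin 2) (Fin 2) ℂ)).IsHermitian := by
    apply hωh.sub
    unfold Matrix.IsHermitian
    rw [Matrix.conjTranspose_smul, Matrix.conjTranspose_one]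
    simp
  have hW12 : 0 ≤ W - 1 / 2 := by rw [← hY]; exact tr2_self_nonneg hYh
  -- parameters
  set h := √(2 * W - 1) with hh
  have hh0 : 0 ≤ h := Real.sqrt_nonneg _
  have hh2 : h ^ 2 = 2 * W - 1 := Real.sq_sqrt (by linarith)
  set d := √(2 * D) with hd
  have hd0 : 0 < d := Real.sqrt_pos.2 (by linarith)
  have hd2 : d ^ 2 = 2 * D := Real.sq_sqrt (by linarith)
  have ha1 : h ^ 2 + (μ * d) ^ 2 ≤ 1 := by
    rw [mul_pow, hh2, hd2]
    linarith
  have hb1 : h ^ 2 + ((1 - μ) * d) ^ 2 ≤ 1 := by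
    rw [mul_pow, hh2, hd2]
    linarith
  have hab : 0 < μ * d + (1 - μ) * d := by
    have : μ * d + (1 - μ) * d = d := by ring
    rw [this]; exact hd0
  have hh1 : h < 1 := by
    have h1 : h ^ 2 < 1 := by
      by_contra hcon
      push Not at hcon
      have e1 : (μ * d) ^ 2 ≤ 0 := by linarith
      have e2 : ((1 - μ) * d) ^ 2 ≤ 0 := by linarith
      have e3 : μ * d = 0 := by
        have := sq_nonneg (μ * d)
        exact pow_eq_zero_iff (two_ne_zero) |>.1 (le_antisymm e1 this)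
      have e4 : (1 - μ) * d = 0 := by
        have := sq_nonneg ((1 - μ) * d)
        exact pow_eq_zero_iff (two_ne_zero) |>.1 (le_antisymm e2 this)
      linarith
    exact lt_of_pow_lt_pow_left₀ 2 (by norm_num) (by rw [one_pow]; exact h1)
  have h1h2 : 0 < 1 - h ^ 2 := by
    have : h ^ 2 < 1 ^ 2 := pow_lt_pow_left₀ hh1 hh0 (by norm_num)
    linarith
  have hrad : radicand ρ σ = D * (1 - h ^ 2) / 2 := by
    unfold radicand
    rw [← hD, ← hα, ← hβ, ← hc, hh2]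
    linear_combination hDW
  have hradpos : 0 < radicand ρ σ := by rw [hrad]; positivity
  -- `k(l)`
  have hrt : ∀ l : ℝ, 0 < l ^ 2 * h ^ 2 + d ^ 2 := by intro l; positivity
  have trH : ∀ l : ℝ, (helstrom ρ σ l).trace = (l : ℂ) := by
    intro l
    unfold helstrom
    rw [← hω, Matrix.trace_sub, Matrix.trace_smul, trω, Matrix.trace_sub, hρ2, hσ2]
    simp
  have trH' : ∀ l : ℝ, (helstrom ρ σ l).trace.re = l := by
    intro l; rw [trH l]; simp
  have hH' : ∀ l : ℝ, helstrom ρ σ l - (l / 2) • (1 : Matrix (Fin 2) (Fin 2) ℂ)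
      = l • (ω - (1 / 2 : ℝ) • (1 : Matrix (Fin 2) (Fin 2) ℂ)) - (ρ - σ) := by
    intro l
    unfold helstrom
    rw [← hω]
    module
  have hYρσ : tr2 (ω - (1 / 2 : ℝ) • (1 : Matrix (Fin 2) (Fin 2) ℂ)) (ρ - σ) = 0 := by
    rw [tr2_sub_left, tr2_sub_right, tr2_smul_left, tr2_sub_right, tr2_comm ω ρ, tr2_comm ω σ,
      hρσ, tr2_comm 1 ρ, tr2_comm 1 σ, ρ1, σ1]
    ring
  have hk2 : ∀ l : ℝ, 2 * (√(l ^ 2 * h ^ 2 + d ^ 2) / 2) ^ 2
      = tr2 (helstrom ρ σ l - ((helstrom ρ σ l).trace.re / 2) • (1 : Matrix (Fin 2) (Fin 2) ℂ))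
        (helstrom ρ σ l - ((helstrom ρ σ l).trace.re / 2) • (1 : Matrix (Fin 2) (Fin 2) ℂ)) := by
    intro l
    rw [trH' l, hH' l, tr2_sub_left, tr2_sub_right, tr2_smul_left, tr2_smul_right, tr2_smul_left,
      hY, hYρσ, tr2_sub_right, tr2_smul_right, tr2_comm (ρ - σ), hYρσ, div_pow,
      Real.sq_sqrt (hrt l).le, hh2, hd2, ← hD]
    ring
  have hkpos : ∀ l : ℝ, 0 < √(l ^ 2 * h ^ 2 + d ^ 2) / 2 := by
    intro l
    have := Real.sqrt_pos.2 (hrt l)
    positivity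
  have hHh : ∀ l : ℝ, (helstrom ρ σ l).IsHermitian := by
    intro l
    unfold helstrom
    rw [← hω]
    refine Matrix.IsHermitian.sub ?_ (hρ1.1.sub hσ1.1)
    unfold Matrix.IsHermitian
    rw [Matrix.conjTranspose_smul, hωh.eq]
    simp
  refine ⟨hradpos, ?_, ?_⟩
  · choose P hP using fun l : ℝ => exists_eigenMeas (hHh l) (hkpos l) (hk2 l)
    exact ⟨P, hP⟩
  intro P hP
  -- the mutual information in the arc parametrisation
  set θ : ℝ → ℝ := fun l => Real.arctan (l * h / d) with hθ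
  have hsq : ∀ l : ℝ, √(1 + (l * h / d) ^ 2) = √(l ^ 2 * h ^ 2 + d ^ 2) / d := by
    intro l
    have e1 : 1 + (l * h / d) ^ 2 = (l ^ 2 * h ^ 2 + d ^ 2) / d ^ 2 := by
      field_simp; ring
    rw [e1, Real.sqrt_div (hrt l).le, Real.sqrt_sq hd0.le]
  have hcu : ∀ a l : ℝ, cu h a (θ l) = (l * h ^ 2 + a * d) / √(l ^ 2 * h ^ 2 + d ^ 2) := by
    intro a l
    have := Real.sqrt_pos.2 (hrt l)
    simp only [hθ]
    unfold cu
    rw [Real.sin_arctan, Real.cos_arctan, hsq l]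
    field_simp
  have hI : ∀ l : ℝ, mutualInfo (joint p ρ σ (P l))
      = J (p 1) (p 0) h (μ * d) ((1 - μ) * d) (θ l) := by
    intro l
    obtain ⟨s, hs, hX⟩ := eigen_prob (hP l) (hkpos l) (hk2 l)
    rw [trH' l, hH' l] at hX
    have hsp := Real.sqrt_pos.2 (hrt l)
    have hσu : tr2 σ (l • (ω - (1 / 2 : ℝ) • (1 : Matrix (Fin 2) (Fin 2) ℂ)) - (ρ - σ))
        / (√(l ^ 2 * h ^ 2 + d ^ 2) / 2) = cu h (μ * d) (θ l) := by
      rw [hcu, tr2_sub_right, tr2_smul_right, tr2_sub_right, tr2_smul_right, hWσ, σ1,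
        tr2_sub_right, hcs, ← hβ]
      rw [div_div_eq_mul_div]
      congr 1
      linear_combination -l * hh2 - μ * hd2 - 2 * hμD
    have hρv : tr2 ρ (l • (ω - (1 / 2 : ℝ) • (1 : Matrix (Fin 2) (Fin 2) ℂ)) - (ρ - σ))
        / (√(l ^ 2 * h ^ 2 + d ^ 2) / 2) = cu h (-((1 - μ) * d)) (θ l) := by
      rw [hcu, tr2_sub_right, tr2_smul_right, tr2_sub_right, tr2_smul_right, hWρ, ρ1,
        tr2_sub_right, ← hα, ← hc]
      rw [div_div_eq_mul_div]
      congr 1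
      linear_combination -l * hh2 + (1 - μ) * hd2 + 2 * hμD'
    have hb1' : h ^ 2 + (-((1 - μ) * d)) ^ 2 ≤ 1 := by rwa [neg_sq]
    rw [mutualInfo_eq (p := p 1) (r := p 0) (u := cu h (μ * d) (θ l))
      (v := cu h (-((1 - μ) * d)) (θ l)) (s := s) (hp 1) (hp 0) (by linarith)
      (cu_sq_le ha1 _) (cu_sq_le hb1' _) hs ?_ ?_ ?_ ?_]
    · rw [cu_mix (by linarith : p 1 + p 0 = 1)]
      rfl
    · have := (hX ρ).1
      rw [hρv, ρ1] at this
      simp only [joint, Matrix.cons_val_zero]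
      rw [this]
    · have := (hX ρ).2
      rw [hρv, ρ1] at this
      simp only [joint, Matrix.cons_val_zero]
      rw [this]
    · have := (hX σ).1
      rw [hσu, σ1] at this
      show p 1 * tr2 σ (P l 0) = _
      rw [this]
    · have := (hX σ).2
      rw [hσu, σ1] at this
      show p 1 * tr2 σ (P l 1) = _
      rw [this]
  -- degenerate cases
  rcases (hp 0).eq_or_lt with hp0 | hp0
  · apply pseudoConcaveOn_of_eq_const (c := 0)
    intro l
    rw [hI l]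
    have : p 1 = 1 := by linarith
    unfold J
    rw [← hp0, this]
    simp
  rcases (hp 1).eq_or_lt with hp1' | hp1'
  · apply pseudoConcaveOn_of_eq_const (c := 0)
    intro l
    rw [hI l]
    have : p 0 = 1 := by linarith
    unfold J
    rw [← hp1', this]
    simp
  rcases hh0.eq_or_lt with hh00 | hh00
  · apply pseudoConcaveOn_of_eq_const (c := J (p 1) (p 0) h (μ * d) ((1 - μ) * d) 0)
    intro l
    rw [hI l]
    simp only [hθ]
    rw [← hh00]
    simp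
  -- main case
  have hpr : p 1 + p 0 = 1 := by linarith
  have hlam : lamStar ρ σ * h / d = h / √(1 - h ^ 2) := by
    unfold lamStar
    rw [← hD, hrad]
    have e1 : D * (1 - h ^ 2) / 2 = (d / 2) ^ 2 * (1 - h ^ 2) := by
      rw [div_pow, hd2]; ring
    rw [e1, Real.sqrt_mul (by positivity), Real.sqrt_sq (by positivity)]
    have e2 : 0 < √(1 - h ^ 2) := Real.sqrt_pos.2 h1h2
    have e3 : D = d ^ 2 / 2 := by rw [hd2]; ring
    rw [e3]
    field_simp
  have hθstar : θ (lamStar ρ σ) = Real.arcsin h := by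
    simp only [hθ]
    rw [hlam, ← Real.arcsin_eq_arctan ⟨by linarith, hh1⟩]
  have hlampos : 0 < lamStar ρ σ := by
    unfold lamStar
    have := Real.sqrt_pos.2 hradpos
    positivity
  have hθmono : StrictMono θ := by
    intro x y hxy
    apply Real.arctan_strictMono
    have : x * h < y * h := mul_lt_mul_of_pos_right hxy hh00
    exact div_lt_div_of_pos_right this hd0
  have hθneg : ∀ x, θ (-x) = - θ x := by
    intro x
    simp only [hθ]
    rw [← Real.arctan_neg]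
    congr 1
    ring
  have hθmem : ∀ x ∈ Icc (-lamStar ρ σ) (lamStar ρ σ), θ x ∈ Icc (-Real.arcsin h) (Real.arcsin h) := by
    intro x hx
    rw [← hθstar, ← hθneg]
    exact ⟨hθmono.monotone hx.1, hθmono.monotone hx.2⟩
  have hθd : ∀ x, HasDerivAt θ (1 / (1 + (x * h / d) ^ 2) * (h / d)) x := by
    intro x
    have h1 : HasDerivAt (fun l : ℝ => l * h / d) (h / d) x := by
      have := ((hasDerivAt_id' x).mul_const h).div_const d
      exact this.congr_deriv (by ring)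
    exact h1.arctan
  have hId : ∀ x, HasDerivAt (fun l => mutualInfo (joint p ρ σ (P l)))
      (K (p 1) (p 0) h (μ * d) ((1 - μ) * d) (θ x) * (1 / (1 + (x * h / d) ^ 2) * (h / d))) x := by
    intro x
    have h1 := (hasDerivAt_J (hp 1) (hp 0) hpr ha1 hb1 (θ x)).comp x (hθd x)
    have h2 : (fun l => mutualInfo (joint p ρ σ (P l)))
        = (J (p 1) (p 0) h (μ * d) ((1 - μ) * d)) ∘ θ := funext hI
    rw [h2]
    exact h1
  refine ⟨fun x _ => (hId x).differentiableAt.differentiableWithinAt, ?_⟩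
  intro x hx y hy hxy
  have hlt : -lamStar ρ σ < lamStar ρ σ := by linarith
  rw [(hId x).hasDerivWithinAt.derivWithin (uniqueDiffOn_Icc hlt x hx)] at hxy
  show mutualInfo (joint p ρ σ (P y)) ≤ mutualInfo (joint p ρ σ (P x))
  rw [hI x, hI y]
  apply J_pc hp1' hp0 hpr hh00 hh1 ha1 hb1 hab (hθmem x hx) (hθmem y hy)
  have hpos : 0 < 1 / (1 + (x * h / d) ^ 2) * (h / d) := by positivity
  rcases lt_trichotomy x y with hlt' | heq | hgt
  · have h1 : K (p 1) (p 0) h (μ * d) ((1 - μ) * d) (θ x) ≤ 0 := by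
      by_contra hcon
      push Not at hcon
      have := mul_pos (mul_pos hcon hpos) (sub_pos.2 hlt')
      linarith
    exact mul_nonpos_of_nonpos_of_nonneg h1 (sub_nonneg.2 (hθmono hlt').le)
  · rw [heq]; simp
  · have h1 : 0 ≤ K (p 1) (p 0) h (μ * d) ((1 - μ) * d) (θ x) := by
      by_contra hcon
      push Not at hcon
      have := mul_pos_of_neg_of_neg (mul_neg_of_neg_of_pos hcon hpos) (sub_neg.2 hgt)
      linarith
    exact mul_nonpos_of_nonneg_of_nonpos h1 (sub_nonpos.2 (hθmono hgt).le)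

end Pool.Agent.Results.MP_6f99f7_mp.PseudoConcave
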